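import Mathlib
import Pool.Agent.H340R2.LW

/-!
Endomorphisms of the field of complex numbers which multiply the exponentials of algebraic numbers
by the values of a character.
-/

set_option autoImplicit false

namespace Pool.Agent.H351R3.Gel

open Complex

/-- The field of algebraic numbers. -/
noncomputable abbrev QB : IntermediateField ℚ ℂ := algebraicClosure ℚ ℂ

theorem mem_QB {z : ℂ} : z ∈ QB ↔ IsAlgebraic ℚ z := mem_algebraicClosure_iff

/-- Extension of ring homomorphisms to algebraic extensions. -/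
theorem exists_extend {R S M : Type*} [CommRing R] [CommRing S] [IsDomain S] [Field M]
    [IsAlgClosed M] (f : R →+* S) (g : R →+* M) (hf : Function.Injective f)
    (hg : Function.Injective g)
    (halg : ∀ s : S, ∃ p : Polynomial R, p ≠ 0 ∧ p.eval₂ f s = 0) :
    ∃ σ : S →+* M, ∀ r, σ (f r) = g r := by
  let _ := f.toAlgebra
  let _ := g.toAlgebra
  have : IsDomain R := hf.isDomain f
  have : FaithfulSMul R S := (faithfulSMul_iff_algebraMap_injective R S).2 hf
  have : FaithfulSMul R M := (faithfulSMul_iff_algebraMap_injective R M).2 hg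
  have : Algebra.IsAlgebraic R S :=
    ⟨fun s => by obtain ⟨p, h1, h2⟩ := halg s; exact ⟨p, h1, h2⟩⟩
  exact ⟨(IsAlgClosed.lift : S →ₐ[R] M).toRingHom,
    fun r => (IsAlgClosed.lift : S →ₐ[R] M).commutes r⟩

/-- Extension of an endomorphism of a subring to an algebraically closed field. -/
theorem exists_endo {R C : Type} [CommRing R] [Field C] [IsAlgClosed C] (f : R →+* C)
    (hf : Function.Injective f) (θ : R →+* R) (hθ : Function.Injective θ) :
    ∃ σ : C →+* C, ∀ r, σ (f r) = f (θ r) := by
  let _ := f.toAlgebra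
  have : IsDomain R := hf.isDomain f
  have : FaithfulSMul R C := (faithfulSMul_iff_algebraMap_injective R C).2 hf
  obtain ⟨s, hs⟩ := exists_isTranscendenceBasis R C
  have hs1 : AlgebraicIndependent R ((↑) : s → C) := hs.1
  have halg := hs.isAlgebraic
  set A₀ := Algebra.adjoin R (Set.range ((↑) : s → C)) with hA₀
  set e := hs1.aevalEquiv with he
  set g : A₀ →+* C := ((MvPolynomial.aeval (R := R) ((↑) : s → C)).toRingHom.comp
    (MvPolynomial.map θ)).comp (e.symm : A₀ ≃ₐ[R] MvPolynomial s R).toRingEquiv.toRingHom with hg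
  have hginj : Function.Injective g := by
    rw [hg]
    intro a b hab
    apply e.symm.injective
    apply MvPolynomial.map_injective θ hθ
    exact hs1 hab
  obtain ⟨σ, hσ⟩ := exists_extend (A₀.val : A₀ →ₐ[R] C).toRingHom g Subtype.val_injective hginj (by
    intro z
    obtain ⟨p, h1, h2⟩ := halg.isAlgebraic z
    exact ⟨p, h1, h2⟩)
  refine ⟨σ, fun r => ?_⟩
  have h1 := hσ (algebraMap R A₀ r)
  have h2 : (A₀.val : A₀ →ₐ[R] C).toRingHom (algebraMap R A₀ r) = f r := rfl
  rw [h2] at h1
  rw [h1, hg]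
  have h3 : e.symm (algebraMap R A₀ r) = algebraMap R (MvPolynomial s R) r := e.symm.commutes r
  simp only [RingHom.comp_apply]
  have h4 : (e.symm : A₀ ≃ₐ[R] MvPolynomial s R).toRingEquiv.toRingHom (algebraMap R A₀ r) =
    MvPolynomial.C r := h3
  rw [h4, MvPolynomial.map_C]
  have h5 : (MvPolynomial.aeval (R := R) ((↑) : s → C)).toRingHom (MvPolynomial.C (θ r)) =
    algebraMap R C (θ r) := (MvPolynomial.aeval (R := R) ((↑) : s → C)).commutes (θ r)
  rw [h5]
  rfl

/-- The homomorphism `γ ↦ χ(γ) exp(γ)`. -/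
noncomputable def expHom (χ : Multiplicative QB →* QB) : Multiplicative QB →* ℂ where
  toFun γ := (χ γ : ℂ) * cexp ((Multiplicative.toAdd γ : QB) : ℂ)
  map_one' := by simp
  map_mul' a b := by
    rw [map_mul, toAdd_mul]
    push_cast
    rw [Complex.exp_add]
    ring

theorem char_ne_zero (χ : Multiplicative QB →* QB) (γ : Multiplicative QB) : χ γ ≠ 0 := by
  intro h
  have h1 : χ γ * χ γ⁻¹ = 1 := by rw [← map_mul, mul_inv_cancel, map_one]
  rw [h, zero_mul] at h1
  exact zero_ne_one h1

/-- Lindemann-Weierstrass: the group algebra embeds. -/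
theorem lift_injective (χ : Multiplicative QB →* QB) :
    Function.Injective (AddMonoidAlgebra.lift QB ℂ QB (expHom χ)) := by
  rw [injective_iff_map_eq_zero]
  intro p hp
  rw [AddMonoidAlgebra.lift_apply', Finsupp.sum] at hp
  have h1 := Pool.Agent.H340R2.LW.lindemann_weierstrass p.coeff.support
    (fun γ => ((γ : QB) : ℂ))
    (fun γ => ((p.coeff γ : QB) : ℂ) * (χ (Multiplicative.ofAdd γ) : ℂ))
    (fun γ _ => mem_QB.1 γ.2) (fun γ _ => (mem_QB.1 (p.coeff γ).2).mul (mem_QB.1 (χ _).2))
    (fun a _ b _ h => Subtype.ext h) (by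
      rw [← hp]
      apply Finset.sum_congr rfl
      intro γ _
      rw [mul_assoc]
      rfl)
  ext γ
  by_cases hγ : γ ∈ p.coeff.support
  · have h2 := h1 γ hγ
    rcases mul_eq_zero.1 h2 with h3 | h3
    · exact h3
    · exfalso
      apply char_ne_zero χ (Multiplicative.ofAdd γ)
      exact Subtype.ext h3
  · have := Finsupp.notMem_support_iff.1 hγ
    rw [this]
    rfl

theorem exists_sigma (χ : Multiplicative QB →* QB) :
    ∃ σ : ℂ →ₐ[QB] ℂ, ∀ γ : QB, σ (cexp γ) = (χ (Multiplicative.ofAdd γ) : ℂ) * cexp γ := by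
  set f := AddMonoidAlgebra.lift QB ℂ QB (expHom 1) with hf
  set θ : AddMonoidAlgebra QB QB →ₐ[QB] AddMonoidAlgebra QB QB :=
    AddMonoidAlgebra.lift QB (AddMonoidAlgebra QB QB) QB
      { toFun := fun γ => AddMonoidAlgebra.single (Multiplicative.toAdd γ) (χ γ)
        map_one' := by
          rw [χ.map_one, toAdd_one]
          rfl
        map_mul' := fun a b => by
          rw [χ.map_mul, toAdd_mul, AddMonoidAlgebra.single_mul_single] } with hθ
  have hcomp : f.comp θ = AddMonoidAlgebra.lift QB ℂ QB (expHom χ) := by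
    refine AddMonoidAlgebra.algHom_ext (fun γ => ?_) (by ext)
    rw [AlgHom.comp_apply, hθ, AddMonoidAlgebra.lift_single, AddMonoidAlgebra.lift_single, hf,
      one_smul, one_smul]
    simp only [MonoidHom.coe_mk, OneHom.coe_mk, toAdd_ofAdd]
    rw [AddMonoidAlgebra.lift_single]
    simp only [expHom, MonoidHom.coe_mk, OneHom.coe_mk, MonoidHom.one_apply, toAdd_ofAdd]
    rw [Algebra.smul_def]
    simp
  have hθinj : Function.Injective θ := by
    have h1 := lift_injective χ
    rw [← hcomp] at h1
    exact Function.Injective.of_comp (f := f) h1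
  obtain ⟨σ, hσ⟩ := exists_endo f.toRingHom (lift_injective 1) θ.toRingHom hθinj
  have hk : ∀ c : QB, σ (algebraMap QB ℂ c) = algebraMap QB ℂ c := by
    intro c
    have h1 := hσ (algebraMap QB (AddMonoidAlgebra QB QB) c)
    have h2 : f.toRingHom (algebraMap QB (AddMonoidAlgebra QB QB) c) = algebraMap QB ℂ c :=
      f.commutes c
    have h3 : θ.toRingHom (algebraMap QB (AddMonoidAlgebra QB QB) c) =
      algebraMap QB (AddMonoidAlgebra QB QB) c := θ.commutes c
    rw [h3, h2] at h1
    exact h1
  refine ⟨{ σ with commutes' := hk }, fun γ => ?_⟩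
  have h1 := hσ (AddMonoidAlgebra.single γ 1)
  have h2 : f.toRingHom (AddMonoidAlgebra.single γ 1) = cexp γ := by
    change f (AddMonoidAlgebra.single γ 1) = _
    rw [hf, AddMonoidAlgebra.lift_single]
    simp [expHom]
  have h3 : f.toRingHom (θ.toRingHom (AddMonoidAlgebra.single γ 1)) =
      (χ (Multiplicative.ofAdd γ) : ℂ) * cexp γ := by
    change (f.comp θ) (AddMonoidAlgebra.single γ 1) = _
    rw [hcomp, AddMonoidAlgebra.lift_single]
    simp [expHom]
  rw [h2, h3] at h1
  exact h1

end Pool.Agent.H351R3.Gel
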