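import Mathlib
import Pool.Agent.H351R3.Gel.Sigma

/-!
Characters of the additive group of algebraic numbers.
-/

set_option autoImplicit false

namespace Pool.Agent.H351R3.Gel

open Complex

theorem isAlgebraic_exp_rat_mul {z : ℂ} (hz : IsAlgebraic ℚ (cexp z)) (q : ℚ) :
    IsAlgebraic ℚ (cexp ((q : ℂ) * z)) := by
  have h1 : cexp ((q : ℂ) * z) ^ q.den = cexp z ^ q.num := by
    rw [← Complex.exp_nat_mul, ← Complex.exp_int_mul]
    congr 1
    rw [← mul_assoc]
    congr 1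
    have h2 : (q.den : ℂ) ≠ 0 := by exact_mod_cast q.den_ne_zero
    have h3 : (q : ℂ) = (q.num : ℂ) / (q.den : ℂ) := by exact_mod_cast (Rat.num_div_den q).symm
    rw [h3]
    field_simp
  have h4 : IsAlgebraic ℚ (cexp z ^ q.num) := by
    rcases q.num with n | n
    · simpa using hz.pow n
    · rw [zpow_negSucc]
      exact (hz.pow (n + 1)).inv
  rw [← h1] at h4
  exact IsAlgebraic.of_pow q.den_pos h4

/-- The character `γ ↦ exp (φ(γ) a + ψ(γ) b)`. -/
noncomputable def charOf (φ ψ : QB →ₗ[ℚ] ℚ) (a b : ℂ) (ha : IsAlgebraic ℚ (cexp a))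
    (hb : IsAlgebraic ℚ (cexp b)) : Multiplicative QB →* QB where
  toFun γ := ⟨cexp ((φ (Multiplicative.toAdd γ) : ℂ) * a + (ψ (Multiplicative.toAdd γ) : ℂ) * b), by
    rw [mem_QB, Complex.exp_add]
    exact (isAlgebraic_exp_rat_mul ha _).mul (isAlgebraic_exp_rat_mul hb _)⟩
  map_one' := by
    apply Subtype.ext
    simp
  map_mul' x y := by
    apply Subtype.ext
    simp only [toAdd_mul, map_add]
    push_cast
    rw [← Complex.exp_add]
    congr 1
    ring

theorem exists_char {ι : Type} [Finite ι] (α : ι → QB) (i₀ : ι) (h0 : α i₀ ≠ 0) :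
    ∃ χ : Multiplicative QB →* QB, χ (Multiplicative.ofAdd (α i₀)) = 1 ∧
      ∀ i, ∀ n : ℕ, 0 < n → χ (Multiplicative.ofAdd (α i)) ^ n = 1 →
        ∃ m : ℤ, (n : ℂ) * (α i : ℂ) = (m : ℂ) * (α i₀ : ℂ) := by
  classical
  obtain ⟨φ, hφ⟩ := Module.exists_dual_forall_apply_ne_zero (K := ℚ) (fun _ : Unit => α i₀)
    (fun _ => h0)
  have hφ0 := hφ ()
  set P : Submodule ℚ QB := Submodule.span ℚ {α i₀} with hP
  obtain ⟨f, hf⟩ := Module.exists_dual_forall_apply_ne_zero (K := ℚ)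
    (fun i : {i // α i ∉ P} => P.mkQ (α i.1)) (fun i => by
      rw [Ne, Submodule.mkQ_apply, Submodule.Quotient.mk_eq_zero]
      exact i.2)
  set φ' : QB →ₗ[ℚ] ℚ := (φ (α i₀))⁻¹ • φ with hφ'
  set ψ : QB →ₗ[ℚ] ℚ := f.comp P.mkQ with hψ
  have hφ1 : φ' (α i₀) = 1 := by
    rw [hφ', LinearMap.smul_apply, smul_eq_mul, inv_mul_cancel₀ hφ0]
  have hψ0 : ψ (α i₀) = 0 := by
    rw [hψ, LinearMap.comp_apply, Submodule.mkQ_apply,
      (Submodule.Quotient.mk_eq_zero P).2 (Submodule.mem_span_singleton_self _), map_zero]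
  have ha : IsAlgebraic ℚ (cexp (2 * Real.pi * I)) := by
    rw [Complex.exp_two_pi_mul_I]; exact isAlgebraic_one
  have hb : IsAlgebraic ℚ (cexp (Real.log 2 : ℂ)) := by
    rw [← Complex.ofReal_exp, Real.exp_log (by norm_num)]
    have := isAlgebraic_natCast (R := ℚ) (A := ℂ) 2
    push_cast
    exact_mod_cast this
  refine ⟨charOf φ' ψ _ _ ha hb, ?_, ?_⟩
  · apply Subtype.ext
    simp only [charOf, MonoidHom.coe_mk, OneHom.coe_mk, toAdd_ofAdd]
    rw [hφ1, hψ0]
    simp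
  · intro i n hn h1
    have h2 : cexp ((n : ℂ) * ((φ' (α i) : ℂ) * (2 * Real.pi * I) + (ψ (α i) : ℂ) * (Real.log 2 : ℂ)))
        = 1 := by
      rw [Complex.exp_nat_mul]
      have h3 := congrArg Subtype.val h1
      simp only [charOf, MonoidHom.coe_mk, OneHom.coe_mk, toAdd_ofAdd] at h3
      exact h3
    have hn0 : (n : ℂ) ≠ 0 := by exact_mod_cast hn.ne'
    obtain ⟨m, hm⟩ := Complex.exp_eq_one_iff.1 h2
    -- real parts
    have h4 := congrArg Complex.re hm
    have h5 : (n : ℝ) * ((ψ (α i) : ℝ) * Real.log 2) = 0 := by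
      have e1 : (n : ℂ) * ((φ' (α i) : ℂ) * (2 * Real.pi * I) + (ψ (α i) : ℂ) * (Real.log 2 : ℂ)) =
        (((n : ℝ) * ((ψ (α i) : ℝ) * Real.log 2) : ℝ) : ℂ) +
          (((n : ℝ) * ((φ' (α i) : ℝ) * (2 * Real.pi)) : ℝ) : ℂ) * I := by
        push_cast
        ring
      have e2 : (m : ℂ) * (2 * Real.pi * I) = ((0 : ℝ) : ℂ) + (((m : ℝ) * (2 * Real.pi) : ℝ) : ℂ) * I := by
        push_cast
        ring
      rw [e1, e2, Complex.add_re, Complex.add_re, Complex.re_ofReal_mul, Complex.re_ofReal_mul,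
        Complex.I_re, Complex.ofReal_re, Complex.ofReal_re] at h4
      linarith
    have hψi : ψ (α i) = 0 := by
      have hl : Real.log 2 ≠ 0 := (Real.log_pos (by norm_num)).ne'
      have hnr : (n : ℝ) ≠ 0 := by exact_mod_cast hn.ne'
      rcases mul_eq_zero.1 h5 with h6 | h6
      · exact absurd h6 hnr
      · rcases mul_eq_zero.1 h6 with h7 | h7
        · exact_mod_cast h7
        · exact absurd h7 hl
    have hmem : α i ∈ P := by
      by_contra hcon
      exact hf ⟨i, hcon⟩ hψi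
    rw [hP, Submodule.mem_span_singleton] at hmem
    obtain ⟨q, hq⟩ := hmem
    have hφi : φ' (α i) = q := by
      rw [← hq, map_smul, hφ1, smul_eq_mul, mul_one]
    refine ⟨m, ?_⟩
    rw [hφi, hψi] at hm
    have h8 : (n : ℂ) * (q : ℂ) = m := by
      have hpi : (2 * Real.pi * I : ℂ) ≠ 0 := Complex.two_pi_I_ne_zero
      apply mul_right_cancel₀ hpi
      rw [← hm]
      push_cast
      ring
    rw [← h8, ← hq]
    rw [mul_assoc]
    congr 1

end Pool.Agent.H351R3.Gel
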