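import Mathlib
import Pool.Agent.H351R3.Gel.Deg

/-!
Sums of numbers with bounded relations to exponentials of algebraic numbers.
-/

set_option autoImplicit false

namespace Pool.Agent.H351R3.Gel

open Polynomial Bivariate Pool.Agent.H297R2 Complex

/-- `a` and `b` are rational multiples of each other, with bounded multipliers. -/
def Close (C : ℕ) (a b : QB) : Prop :=
  ∃ p q : ℤ, p ≠ 0 ∧ q ≠ 0 ∧ p.natAbs ≤ C ∧ q.natAbs ≤ C ∧ (p : QB) * a = (q : QB) * b

theorem Close.refl {C : ℕ} (hC : 1 ≤ C) (a : QB) : Close C a a :=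
  ⟨1, 1, one_ne_zero, one_ne_zero, by simpa using hC, by simpa using hC, rfl⟩

theorem Close.symm {C : ℕ} {a b : QB} (h : Close C a b) : Close C b a := by
  obtain ⟨p, q, h1, h2, h3, h4, h5⟩ := h
  exact ⟨q, p, h2, h1, h4, h3, h5.symm⟩

theorem Close.mono {C C' : ℕ} (hC : C ≤ C') {a b : QB} (h : Close C a b) : Close C' a b := by
  obtain ⟨p, q, h1, h2, h3, h4, h5⟩ := h
  exact ⟨p, q, h1, h2, h3.trans hC, h4.trans hC, h5⟩

theorem Close.trans {C C' : ℕ} {a b c : QB} (h : Close C a b) (h' : Close C' b c) :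
    Close (C * C') a c := by
  obtain ⟨p, q, h1, h2, h3, h4, h5⟩ := h
  obtain ⟨p', q', h1', h2', h3', h4', h5'⟩ := h'
  refine ⟨p * p', q * q', mul_ne_zero h1 h1', mul_ne_zero h2 h2', ?_, ?_, ?_⟩
  · rw [Int.natAbs_mul]; exact Nat.mul_le_mul h3 h3'
  · rw [Int.natAbs_mul]; exact Nat.mul_le_mul h4 h4'
  · push_cast
    linear_combination (p' : QB) * h5 + (q : QB) * h5'

theorem transcendental_exp {a : QB} (ha : a ≠ 0) : Transcendental QB (cexp (a : ℂ)) := by
  rw [transcendental_iff, mem_QB]
  exact Pool.Agent.H340R2.LW.transcendental_cexp _ (mem_QB.1 a.2) (fun h => ha (Subtype.ext h))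

theorem pow_scale (σ : ℂ →ₐ[QB] ℂ) {u : ℂ} {c : QB} (h : σ u = (c : ℂ) * u) (n : ℕ) :
    (σ ^ n) u = ((c ^ n : QB) : ℂ) * u := by
  induction n with
  | zero => rw [pow_zero, pow_zero]; simp
  | succ n ih =>
    rw [pow_succ, AlgHom.mul_apply, h, map_mul, ih]
    have : (σ ^ n) (c : ℂ) = (c : ℂ) := (σ ^ n).commutes c
    rw [this, pow_succ]
    push_cast
    ring

theorem far (m : ℕ) : ∀ D : ℕ, ∃ C : ℕ, ∀ {ι : Type} [DecidableEq ι] (s : Finset ι) (α : ι → QB)
    (x : ι → ℂ), s.card = m → (∀ i ∈ s, α i ≠ 0) → (∀ i ∈ s, Good D (cexp (α i : ℂ)) (x i)) →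
    (∀ i ∈ s, ∀ j ∈ s, i ≠ j → ¬ Close C (α i) (α j)) → ∑ i ∈ s, x i ∈ QB → ∀ i ∈ s, x i ∈ QB := by
  induction m with
  | zero =>
    intro D
    refine ⟨0, fun s α x hs _ _ _ _ i hi => ?_⟩
    rw [Finset.card_eq_zero] at hs
    rw [hs] at hi
    exact absurd hi (Finset.notMem_empty i)
  | succ m ih =>
    intro D
    obtain ⟨C', hC'⟩ := ih (dd D)
    refine ⟨max C' ((D + 1) * (D + 1)), fun {ι} _ s α x hs h0 hgood hfar hsum => ?_⟩
    have hne : s.Nonempty := by
      rw [← Finset.card_pos]; omega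
    obtain ⟨i₀, hi₀, hmax⟩ := Finset.exists_max_image s (fun i => ‖(α i : ℂ)‖) hne
    obtain ⟨χ, hχ0, hχ⟩ := exists_char (fun i : s => α i) ⟨i₀, hi₀⟩ (h0 i₀ hi₀)
    obtain ⟨σ, hσ⟩ := exists_sigma χ
    have hord : ∀ j ∈ s, j ≠ i₀ → ∀ n : ℕ, 0 < n → n ≤ (D + 1) * (D + 1) →
        χ (Multiplicative.ofAdd (α j)) ^ n ≠ 1 := by
      intro j hj hji n hn hnD h1
      obtain ⟨k, hk⟩ := hχ ⟨j, hj⟩ n hn h1
      simp only at hk
      have hαj : (α j : ℂ) ≠ 0 := fun h => h0 j hj (Subtype.ext h)
      have hαi : (α i₀ : ℂ) ≠ 0 := fun h => h0 i₀ hi₀ (Subtype.ext h)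
      have hn0 : (n : ℂ) ≠ 0 := by exact_mod_cast hn.ne'
      have hk0 : k ≠ 0 := by
        rintro rfl
        rw [Int.cast_zero, zero_mul] at hk
        exact mul_ne_zero hn0 hαj hk
      have hkn : k.natAbs ≤ n := by
        have e1 := congrArg norm hk
        rw [norm_mul, norm_mul, Complex.norm_natCast, Complex.norm_intCast] at e1
        have e2 := hmax j hj
        have e3 : 0 < ‖(α i₀ : ℂ)‖ := norm_pos_iff.2 hαi
        have e4 : |(k : ℝ)| * ‖(α i₀ : ℂ)‖ ≤ n * ‖(α i₀ : ℂ)‖ := by
          rw [← e1]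
          exact mul_le_mul_of_nonneg_left e2 (Nat.cast_nonneg n)
        have e5 : |(k : ℝ)| ≤ n := le_of_mul_le_mul_right e4 e3
        have e6 : ((k.natAbs : ℕ) : ℝ) = |(k : ℝ)| := by
          rw [Nat.cast_natAbs, Int.cast_abs]
        rw [← e6] at e5
        exact_mod_cast e5
      apply hfar j hj i₀ hi₀ hji
      refine ⟨n, k, by exact_mod_cast hn.ne', hk0, ?_, ?_, ?_⟩
      · rw [Int.natAbs_natCast]; exact hnD.trans (le_max_right _ _)
      · exact (hkn.trans hnD).trans (le_max_right _ _)
      · apply Subtype.ext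
        push_cast
        exact hk
    have hfix : ∃ n : ℕ, 0 < n ∧ n ≤ D + 1 ∧ (σ ^ n) (x i₀) = x i₀ := by
      rcases hgood i₀ hi₀ with h1 | ⟨_, h2, _⟩
      · exact ⟨1, one_pos, by omega, (σ ^ 1).commutes (⟨x i₀, h1⟩ : QB)⟩
      · obtain ⟨n, h3, h4, h5⟩ := exists_pow_fix (transcendental_exp (h0 i₀ hi₀)) h2 σ (by
          rw [hσ, hχ0]
          simp)
        exact ⟨n, h3, by omega, h5⟩
    obtain ⟨n, hn0, hnD, hnx⟩ := hfix
    set τ := σ ^ n with hτ
    have hτu : ∀ j, τ (cexp (α j : ℂ)) =
        ((χ (Multiplicative.ofAdd (α j)) ^ n : QB) : ℂ) * cexp (α j : ℂ) :=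
      fun j => pow_scale σ (hσ (α j)) n
    have hsum2 : x i₀ + ∑ i ∈ s.erase i₀, x i = ∑ i ∈ s, x i := Finset.add_sum_erase s x hi₀
    have hy : ∀ j ∈ s.erase i₀, τ (x j) - x j ∈ QB := by
      refine hC' (s.erase i₀) α (fun j => τ (x j) - x j) ?_ ?_ ?_ ?_ ?_
      · rw [Finset.card_erase_of_mem hi₀, hs]; rfl
      · intro i hi; exact h0 i (Finset.mem_of_mem_erase hi)
      · intro i hi
        have hi' := Finset.mem_of_mem_erase hi
        have t := transcendental_exp (h0 i hi')
        exact Good.sub t ((hgood i hi').map τ t (pow_ne_zero n (char_ne_zero χ _)) (hτu i))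
          (hgood i hi')
      · intro i hi j hj hij h
        exact hfar i (Finset.mem_of_mem_erase hi) j (Finset.mem_of_mem_erase hj) hij
          (h.mono (le_max_left _ _))
      · rw [Finset.sum_sub_distrib, ← map_sum]
        have e1 : ∑ i ∈ s.erase i₀, x i = ∑ i ∈ s, x i - x i₀ := by
          rw [← hsum2]; ring
        have e2 : τ (∑ i ∈ s, x i) = ∑ i ∈ s, x i := τ.commutes (⟨_, hsum⟩ : QB)
        rw [e1, map_sub, e2, hnx, sub_self]
        exact QB.zero_mem
    have hx : ∀ j ∈ s.erase i₀, x j ∈ QB := by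
      intro j hj
      have hj' := Finset.mem_of_mem_erase hj
      rcases hgood j hj' with h1 | ⟨h1, _, h3⟩
      · exact h1
      · exfalso
        refine no_shift h1 (Complex.exp_ne_zero _) h3 τ ⟨_, hy j hj⟩ _ ?_ (hτu j)
          (pow_ne_zero n (char_ne_zero χ _)) ?_
        · change τ (x j) = x j + (τ (x j) - x j)
          ring
        · intro k hk0 hkD
          rw [← pow_mul]
          refine hord j hj' (Finset.ne_of_mem_erase hj) (n * k) (Nat.mul_pos hn0 hk0) ?_
          exact Nat.mul_le_mul hnD (by omega)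
    intro i hi
    by_cases hii : i = i₀
    · subst hii
      have e1 : x i = ∑ i ∈ s, x i - ∑ i ∈ s.erase i, x i := by
        rw [← hsum2]; ring
      rw [e1]
      exact QB.sub_mem hsum (QB.sum_mem hx)
    · exact hx i (Finset.mem_erase.2 ⟨hii, hi⟩)

/-- If no proper nonempty partial sum is algebraic, then all the exponents are close. -/
theorem conn (m : ℕ) : ∀ D : ℕ, ∃ C : ℕ, 1 ≤ C ∧ ∀ {ι : Type} [DecidableEq ι] (s : Finset ι)
    (α : ι → QB) (x : ι → ℂ), s.card = m → (∀ i ∈ s, α i ≠ 0) →
    (∀ i ∈ s, Good D (cexp (α i : ℂ)) (x i)) → ∑ i ∈ s, x i ∈ QB →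
    (∀ t ⊆ s, t.Nonempty → t ≠ s → ∑ i ∈ t, x i ∉ QB) →
    ∀ i ∈ s, ∀ j ∈ s, Close C (α i) (α j) := by
  induction m with
  | zero =>
    intro D
    refine ⟨1, le_rfl, fun s α x hs _ _ _ _ i hi => ?_⟩
    rw [Finset.card_eq_zero] at hs
    rw [hs] at hi
    exact absurd hi (Finset.notMem_empty i)
  | succ m ih =>
    intro D
    obtain ⟨C₁', hC₁'⟩ := far (m + 1) D
    set C₁ := C₁' + 1 with hC₁
    set M := C₁.factorial with hM
    have hM1 : 1 ≤ M := Nat.factorial_pos _
    set E := D * (C₁ * M) with hE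
    obtain ⟨C₂, hC₂1, hC₂⟩ := ih (dd E)
    set C₃ := M * C₂ * M with hC₃
    have hC₃1 : 1 ≤ C₃ := Nat.mul_pos (Nat.mul_pos hM1 hC₂1) hM1
    have hC₁1 : 1 ≤ C₁ := by omega
    refine ⟨C₃ * C₁, Nat.mul_pos hC₃1 hC₁1, fun {ι} _ s α x hs h0 hgood hsum hsub => ?_⟩
    -- the case of one element
    by_cases hm : m = 0
    · intro i hi j hj
      have : i = j := by
        rw [hm, zero_add, Finset.card_eq_one] at hs
        obtain ⟨a, ha⟩ := hs
        rw [ha, Finset.mem_singleton] at hi hj
        rw [hi, hj]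
      rw [this]
      exact Close.refl (Nat.mul_pos hC₃1 hC₁1) _
    have hsingle : ∀ i ∈ s, x i ∉ QB := by
      intro i hi
      have := hsub {i} (Finset.singleton_subset_iff.2 hi) (Finset.singleton_nonempty i) (by
        intro h
        rw [← h, Finset.card_singleton] at hs
        omega)
      rwa [Finset.sum_singleton] at this
    have hpair : ∃ i ∈ s, ∃ j ∈ s, i ≠ j ∧ Close C₁ (α i) (α j) := by
      by_contra hcon
      push Not at hcon
      have hne : s.Nonempty := by
        rw [← Finset.card_pos]; omega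
      obtain ⟨i, hi⟩ := hne
      apply hsingle i hi
      exact hC₁' s α x hs h0 hgood (fun i hi j hj hij h => hcon i hi j hj hij
        (h.mono (by omega))) hsum i hi
    obtain ⟨i, hi, j, hj, hij, hclose⟩ := hpair
    have hMQ : (M : QB) ≠ 0 := by exact_mod_cast (by omega : M ≠ 0)
    set β : QB := α i / (M : QB) with hβ
    have hβ0 : β ≠ 0 := div_ne_zero (h0 i hi) hMQ
    have hβM : (M : QB) * β = α i := by rw [hβ]; field_simp
    set v := cexp (β : ℂ) with hv
    have tv : Transcendental QB v := transcendental_exp hβ0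
    have hgi : Good E v (x i) := by
      have e1 : cexp (α i : ℂ) = v ^ (M : ℤ) := by
        rw [← hβM, hv, ← Complex.exp_int_mul]
        push_cast
        rfl
      have e2 := hgood i hi
      rw [e1] at e2
      refine (Good.zpow tv (M : ℤ) (by omega) (by rw [← e1]; exact transcendental_exp (h0 i hi))
        e2).mono ?_
      rw [Int.natAbs_natCast, hE]
      exact Nat.mul_le_mul_left D (Nat.le_mul_of_pos_left M hC₁1)
    have hgj : Good E v (x j) := by
      obtain ⟨p, q, hp, hq, hpC, hqC, hpq⟩ := hclose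
      have hqM : q ∣ (M : ℤ) := by
        rw [← Int.natAbs_dvd]
        exact_mod_cast Nat.dvd_factorial (Int.natAbs_pos.2 hq) hqC
      obtain ⟨k, hk⟩ := hqM
      have hk0 : k ≠ 0 := by
        rintro rfl
        rw [mul_zero] at hk
        omega
      have e1 : (α j : QB) = ((p * k : ℤ) : QB) * β := by
        have hq' : (q : QB) ≠ 0 := by exact_mod_cast hq
        apply mul_left_cancel₀ hq'
        rw [← hpq, ← hβM]
        have : (M : QB) = (q : QB) * (k : QB) := by exact_mod_cast congrArg (Int.cast (R := QB)) hk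
        rw [this]
        push_cast
        ring
      have e2 : cexp (α j : ℂ) = v ^ (p * k) := by
        rw [e1, hv, ← Complex.exp_int_mul]
        push_cast
        rfl
      have e3 := hgood j hj
      rw [e2] at e3
      refine (Good.zpow tv (p * k) (mul_ne_zero hp hk0) (by
        rw [← e2]; exact transcendental_exp (h0 j hj)) e3).mono ?_
      rw [hE, Int.natAbs_mul]
      apply Nat.mul_le_mul_left
      apply Nat.mul_le_mul hpC
      have e4 : M = q.natAbs * k.natAbs := by
        have := congrArg Int.natAbs hk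
        rwa [Int.natAbs_natCast, Int.natAbs_mul] at this
      rw [e4]
      exact Nat.le_mul_of_pos_left _ (Int.natAbs_pos.2 hq)
    have hgij : Good (dd E) v (x i + x j) := Good.add tv hgi hgj
    set s' := s.erase j with hs'
    set α' := Function.update α i β with hα'
    set x' := Function.update x i (x i + x j) with hx'
    have hi' : i ∈ s' := Finset.mem_erase.2 ⟨hij, hi⟩
    have hsum' : ∀ t ⊆ s', i ∈ t → ∑ a ∈ t, x' a = ∑ a ∈ insert j t, x a := by
      intro t ht hit
      have hjt : j ∉ t := fun h => Finset.notMem_erase j s (ht h)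
      rw [Finset.sum_insert hjt, ← Finset.add_sum_erase t x' hit, ← Finset.add_sum_erase t x hit]
      have e1 : x' i = x i + x j := by rw [hx', Function.update_self]
      have e2 : ∑ a ∈ t.erase i, x' a = ∑ a ∈ t.erase i, x a := by
        apply Finset.sum_congr rfl
        intro a ha
        rw [hx', Function.update_of_ne (Finset.ne_of_mem_erase ha)]
      rw [e1, e2]
      ring
    have hsum'' : ∀ t ⊆ s', i ∉ t → ∑ a ∈ t, x' a = ∑ a ∈ t, x a := by
      intro t _ hit
      apply Finset.sum_congr rfl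
      intro a ha
      rw [hx', Function.update_of_ne]
      rintro rfl
      exact hit ha
    have key : ∀ a ∈ s', ∀ b ∈ s', Close C₂ (α' a) (α' b) := by
      apply hC₂ s' α' x'
      · rw [hs', Finset.card_erase_of_mem hj, hs]; rfl
      · intro a ha
        by_cases hai : a = i
        · rw [hai, hα', Function.update_self]; exact hβ0
        · rw [hα', Function.update_of_ne hai]; exact h0 a (Finset.mem_of_mem_erase ha)
      · intro a ha
        by_cases hai : a = i
        · rw [hai, hα', hx', Function.update_self, Function.update_self]; exact hgij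
        · rw [hα', hx', Function.update_of_ne hai, Function.update_of_ne hai]
          refine (hgood a (Finset.mem_of_mem_erase ha)).mono ?_
          refine le_trans ?_ (le_dd E)
          rw [hE]
          exact Nat.le_mul_of_pos_right D (Nat.mul_pos hC₁1 hM1)
      · rw [hsum' s' (Finset.Subset.refl _) hi', hs', Finset.insert_erase hj]
        exact hsum
      · intro t ht htn hts
        by_cases hit : i ∈ t
        · rw [hsum' t ht hit]
          apply hsub _ _ (Finset.insert_nonempty j t)
          · intro h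
            apply hts
            rw [hs', ← h, Finset.erase_insert]
            exact fun h => Finset.notMem_erase j s (ht h)
          · apply Finset.insert_subset hj
            exact ht.trans (Finset.erase_subset _ _)
        · rw [hsum'' t ht hit]
          apply hsub _ (ht.trans (Finset.erase_subset _ _)) htn
          rintro rfl
          exact hit hi
    have hstep : ∀ a, Close M (α a) (α' a) := by
      intro a
      by_cases hai : a = i
      · rw [hai, hα', Function.update_self]
        refine ⟨1, M, one_ne_zero, by omega, by simpa using hM1, by simp, ?_⟩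
        push_cast
        rw [hβM, one_mul]
      · rw [hα', Function.update_of_ne hai]
        exact Close.refl hM1 _
    have key2 : ∀ a ∈ s', ∀ b ∈ s', Close C₃ (α a) (α b) := by
      intro a ha b hb
      exact ((hstep a).trans (key a ha b hb)).trans (hstep b).symm
    have key3 : ∀ a ∈ s', Close (C₃ * C₁) (α a) (α j) :=
      fun a ha => (key2 a ha i hi').trans hclose
    intro a ha b hb
    by_cases haj : a = j
    · by_cases hbj : b = j
      · rw [haj, hbj]; exact Close.refl (Nat.mul_pos hC₃1 hC₁1) _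
      · rw [haj]
        exact (key3 b (Finset.mem_erase.2 ⟨hbj, hb⟩)).symm
    · by_cases hbj : b = j
      · rw [hbj]
        exact key3 a (Finset.mem_erase.2 ⟨haj, ha⟩)
      · exact (key2 a (Finset.mem_erase.2 ⟨haj, ha⟩) b (Finset.mem_erase.2 ⟨hbj, hb⟩)).mono
          (Nat.le_mul_of_pos_right _ hC₁1)

end Pool.Agent.H351R3.Gel
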