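import Mathlib
import Pool.Agent.H351R3.Gel.Far

/-!
Cubes of logarithms and exponentials of arbitrary algebraic numbers.
-/

set_option autoImplicit false

namespace Pool.Agent.H351R3.Gel

open Polynomial Bivariate Pool.Agent.H297R2 Complex

theorem natDegree_aeval_le {σ : Type} (g : σ → QB[X][Y])
    (hg : ∀ o, (g o).natDegree ≤ 1) (P : MvPolynomial σ QB) :
    (MvPolynomial.aeval g P).natDegree ≤ P.totalDegree := by
  rw [MvPolynomial.aeval_def, MvPolynomial.eval₂_eq]
  apply natDegree_sum_le_of_forall_le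
  intro d hd
  refine (natDegree_mul_le).trans ?_
  have h1 : (algebraMap QB QB[X][Y] (P.coeff d)).natDegree = 0 := by
    have : algebraMap QB QB[X][Y] (P.coeff d) = C (C (P.coeff d)) := rfl
    rw [this, natDegree_C]
  rw [h1, zero_add]
  refine (natDegree_prod_le _ _).trans ?_
  refine le_trans ?_ (MvPolynomial.le_totalDegree hd)
  rw [Finsupp.sum]
  apply Finset.sum_le_sum
  intro i _
  refine (natDegree_pow_le).trans ?_
  calc d i * (g i).natDegree ≤ d i * 1 := Nat.mul_le_mul_left _ (hg i)
    _ = d i := mul_one _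

/-- A relation of bounded total degree bounds both degrees. -/
theorem degLe_of_rel {D : ℕ} {u x : ℂ} (P : MvPolynomial (Fin 2) QB) (hP0 : P ≠ 0)
    (hPD : P.totalDegree ≤ D) (h : MvPolynomial.aeval ![u, x] P = 0) :
    DegLe QB D u x ∧ DegLe QB D x u := by
  have hC : (C X : QB[X][Y]).natDegree ≤ 1 := by rw [natDegree_C]; exact Nat.zero_le _
  have hY : (Y : QB[X][Y]).natDegree ≤ 1 := natDegree_X_le
  constructor
  · refine ⟨MvPolynomial.aeval ![C X, Y] P, ?_, (natDegree_aeval_le _ ?_ P).trans hPD, ?_⟩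
    · intro h0
      apply hP0
      have h1 : (aevalAeval (R := QB) (MvPolynomial.X 0 : MvPolynomial (Fin 2) QB)
          (MvPolynomial.X 1)).comp (MvPolynomial.aeval ![C X, Y]) =
          AlgHom.id QB (MvPolynomial (Fin 2) QB) := by
        apply MvPolynomial.algHom_ext
        intro i
        fin_cases i <;> simp
      have h2 := DFunLike.congr_fun h1 P
      rw [AlgHom.comp_apply, h0, _root_.map_zero] at h2
      exact h2.symm
    · intro o
      fin_cases o
      · exact hC
      · exact hY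
    · have h1 : (aevalAeval (R := QB) u x).comp (MvPolynomial.aeval ![C X, Y]) =
          MvPolynomial.aeval ![u, x] := by
        apply MvPolynomial.algHom_ext
        intro i
        fin_cases i <;> simp
      have h2 := DFunLike.congr_fun h1 P
      rw [AlgHom.comp_apply] at h2
      rw [h2, h]
  · refine ⟨MvPolynomial.aeval ![Y, C X] P, ?_, (natDegree_aeval_le _ ?_ P).trans hPD, ?_⟩
    · intro h0
      apply hP0
      have h1 : (aevalAeval (R := QB) (MvPolynomial.X 1 : MvPolynomial (Fin 2) QB)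
          (MvPolynomial.X 0)).comp (MvPolynomial.aeval ![Y, C X]) =
          AlgHom.id QB (MvPolynomial (Fin 2) QB) := by
        apply MvPolynomial.algHom_ext
        intro i
        fin_cases i <;> simp
      have h2 := DFunLike.congr_fun h1 P
      rw [AlgHom.comp_apply, h0, _root_.map_zero] at h2
      exact h2.symm
    · intro o
      fin_cases o
      · exact hY
      · exact hC
    · have h1 : (aevalAeval (R := QB) x u).comp (MvPolynomial.aeval ![Y, C X]) =
          MvPolynomial.aeval ![u, x] := by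
        apply MvPolynomial.algHom_ext
        intro i
        fin_cases i <;> simp
      have h2 := DFunLike.congr_fun h1 P
      rw [AlgHom.comp_apply] at h2
      rw [h2, h]

theorem notMem_of_log {z : ℂ} (hz : z ≠ 0) (h : IsAlgebraic ℚ (cexp z)) : z ∉ QB :=
  transcendental_iff.1 (transcendental_of_log hz h)

theorem notMem_neg {z : ℂ} (h : z ∉ QB) : -z ∉ QB := fun h' => h (by
  have := QB.neg_mem h'
  rwa [neg_neg] at this)

/-- Four terms. -/
theorem four (D : ℕ) : ∃ C : ℕ, 1 ≤ C ∧ ∀ (α : Fin 4 → QB) (x : Fin 4 → ℂ), (∀ i, α i ≠ 0) →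
    (∀ i, Good D (cexp (α i : ℂ)) (x i)) → x 0 + x 1 = x 2 + x 3 →
    (∀ i, x i ∉ QB) → x 0 + x 1 ∉ QB → x 0 - x 2 ∉ QB → x 0 - x 3 ∉ QB →
    ∀ i j, Close C (α i) (α j) := by
  obtain ⟨C, hC1, hC⟩ := conn 4 D
  refine ⟨C, hC1, fun α x h0 hg hsum h1 h01 h02 h03 i j => ?_⟩
  set y : Fin 4 → ℂ := ![x 0, x 1, -x 2, -x 3] with hy
  have hys : y 0 + y 1 + y 2 + y 3 = 0 := by
    simp only [hy, Matrix.cons_val_zero, Matrix.cons_val_one, Matrix.cons_val]
    linear_combination hsum
  have hsums : ∀ t : Finset (Fin 4), ∑ a ∈ t, y a = (if 0 ∈ t then y 0 else 0) +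
      (if 1 ∈ t then y 1 else 0) + (if 2 ∈ t then y 2 else 0) + (if 3 ∈ t then y 3 else 0) := by
    intro t
    rw [← Fin.sum_univ_four (fun a => if a ∈ t then y a else 0), Finset.sum_ite_mem,
      Finset.univ_inter]
  have e0 : y 0 = x 0 := rfl
  have e1 : y 1 = x 1 := rfl
  have e2 : y 2 = -x 2 := rfl
  have e3 : y 3 = -x 3 := rfl
  refine hC Finset.univ α y (by simp) (fun i _ => h0 i) ?_ ?_ ?_ i (Finset.mem_univ _) j
    (Finset.mem_univ _)
  · intro i _
    fin_cases i
    · exact hg 0
    · exact hg 1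
    · exact (hg 2).neg
    · exact (hg 3).neg
  · rw [Fin.sum_univ_four, hys]
    exact QB.zero_mem
  · intro t _ htn htu
    rw [hsums t]
    have hne : ¬ (0 ∉ t ∧ 1 ∉ t ∧ 2 ∉ t ∧ 3 ∉ t) := by
      rintro ⟨a0, a1, a2, a3⟩
      obtain ⟨b, hb⟩ := htn
      fin_cases b
      · exact a0 hb
      · exact a1 hb
      · exact a2 hb
      · exact a3 hb
    have hnu : ¬ (0 ∈ t ∧ 1 ∈ t ∧ 2 ∈ t ∧ 3 ∈ t) := by
      rintro ⟨a0, a1, a2, a3⟩
      apply htu
      ext b
      fin_cases b
      · simpa using a0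
      · simpa using a1
      · simpa using a2
      · simpa using a3
    have n23 : -(x 0 + x 1) ∉ QB := notMem_neg h01
    have n02 : -(x 0 - x 2) ∉ QB := notMem_neg h02
    have n03 : -(x 0 - x 3) ∉ QB := notMem_neg h03
    have m0 := notMem_neg (h1 0)
    have m1 := notMem_neg (h1 1)
    have m2 := notMem_neg (h1 2)
    have m3 := notMem_neg (h1 3)
    by_cases a0 : (0 : Fin 4) ∈ t <;> by_cases a1 : (1 : Fin 4) ∈ t <;>
      by_cases a2 : (2 : Fin 4) ∈ t <;> by_cases a3 : (3 : Fin 4) ∈ t <;>
      simp only [a0, a1, a2, a3, if_true, if_false, e0, e1, e2, e3]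
    · exact absurd ⟨a0, a1, a2, a3⟩ hnu
    · -- 0 1 2
      have : x 0 + x 1 + -x 2 + 0 = x 3 := by linear_combination hsum
      rw [this]; exact h1 3
    · have : x 0 + x 1 + 0 + -x 3 = x 2 := by linear_combination hsum
      rw [this]; exact h1 2
    · have : x 0 + x 1 + 0 + 0 = x 0 + x 1 := by ring
      rw [this]; exact h01
    · have : x 0 + 0 + -x 2 + -x 3 = -x 1 := by linear_combination hsum
      rw [this]; exact m1
    · have : x 0 + 0 + -x 2 + 0 = x 0 - x 2 := by ring
      rw [this]; exact h02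
    · have : x 0 + 0 + 0 + -x 3 = x 0 - x 3 := by ring
      rw [this]; exact h03
    · have : x 0 + 0 + 0 + 0 = x 0 := by ring
      rw [this]; exact h1 0
    · have : 0 + x 1 + -x 2 + -x 3 = -x 0 := by linear_combination hsum
      rw [this]; exact m0
    · have : 0 + x 1 + -x 2 + 0 = -(x 0 - x 3) := by linear_combination hsum
      rw [this]; exact n03
    · have : 0 + x 1 + 0 + -x 3 = -(x 0 - x 2) := by linear_combination hsum
      rw [this]; exact n02
    · have : 0 + x 1 + 0 + 0 = x 1 := by ring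
      rw [this]; exact h1 1
    · have : 0 + 0 + -x 2 + -x 3 = -(x 0 + x 1) := by linear_combination hsum
      rw [this]; exact n23
    · have : 0 + 0 + -x 2 + 0 = -x 2 := by ring
      rw [this]; exact m2
    · have : 0 + 0 + 0 + -x 3 = -x 3 := by ring
      rw [this]; exact m3
    · exact absurd ⟨a0, a1, a2, a3⟩ hne

theorem exp_sum_alg {r : ℕ} (w : Fin r → ℂ) (hw : ∀ i, IsAlgebraic ℚ (cexp (w i)))
    (S : Finset (Fin r)) : IsAlgebraic ℚ (cexp (∑ i ∈ S, w i)) := by
  rw [Complex.exp_sum]
  apply Finset.prod_induction _ (fun z => IsAlgebraic ℚ z) (fun a b => IsAlgebraic.mul)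
    isAlgebraic_one
  intro i _
  exact hw i

theorem linearIndependent_QB {r : ℕ} (w : Fin r → ℂ) (hw : ∀ i, IsAlgebraic ℚ (cexp (w i)))
    (hli : LinearIndependent ℚ w) : LinearIndependent QB w := by
  rw [Fintype.linearIndependent_iff]
  intro c hc i
  have h1 := baker w hw hli (fun i => (c i : ℂ)) (fun i => mem_QB.1 (c i).2) (by
      rw [← hc]
      apply Finset.sum_congr rfl
      intro i _
      rfl) i
  exact_mod_cast h1

/-- **The cube theorem.** -/
theorem cube (D : ℕ) : ∃ r : ℕ, 1 ≤ r ∧ ∀ (v₀ : ℂ) (w : Fin r → ℂ), IsAlgebraic ℚ (cexp v₀) →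
    (∀ i, IsAlgebraic ℚ (cexp (w i))) → LinearIndependent ℚ w →
    (∀ S : Finset (Fin r), v₀ + ∑ i ∈ S, w i ≠ 0) →
    (∀ S : Finset (Fin r), v₀ + (v₀ + ∑ i ∈ S, w i) ≠ 0) →
    ∃ S : Finset (Fin r), ∀ α : ℂ, IsAlgebraic ℚ α → α ≠ 0 →
      ¬ (DegLe QB D (cexp α) (v₀ + ∑ i ∈ S, w i) ∧ DegLe QB D (v₀ + ∑ i ∈ S, w i) (cexp α)) := by
  classical
  have hac : IsAlgClosed QB := (algebraicClosure.isAlgClosure ℚ ℂ).isAlgClosed
  obtain ⟨C, hC1, hC⟩ := four D
  set M := C.factorial with hM
  have hM1 : 1 ≤ M := Nat.factorial_pos _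
  set E := D * (C * M) with hE
  obtain ⟨r₁, hr₁⟩ := cube_free QB ℂ Unit (E + E)
  refine ⟨r₁ + 2, by omega, fun v₀ w hv₀ hw hli hne hne2 => ?_⟩
  by_contra hcon
  push Not at hcon
  choose a' ha'alg ha'0 ha'1 ha'2 using hcon
  set a : Finset (Fin (r₁ + 2)) → QB := fun S => ⟨a' S, mem_QB.2 (ha'alg S)⟩ with ha
  have ha0 : ∀ S, a S ≠ 0 := fun S h => ha'0 S (congrArg Subtype.val h)
  set x : Finset (Fin (r₁ + 2)) → ℂ := fun S => v₀ + ∑ i ∈ S, w i with hx
  have hxalg : ∀ S, IsAlgebraic ℚ (cexp (x S)) := by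
    intro S
    rw [hx]
    simp only
    rw [Complex.exp_add]
    exact hv₀.mul (exp_sum_alg w hw S)
  have hxt : ∀ S, x S ∉ QB := fun S => notMem_of_log (hne S) (hxalg S)
  have hgood : ∀ S, Good D (cexp (a S : ℂ)) (x S) :=
    fun S => Or.inr ⟨transcendental_iff.2 (hxt S), ha'1 S, ha'2 S⟩
  have hdiff : ∀ S T, S ≠ T → x S - x T ∉ QB := by
    intro S T hST
    apply notMem_of_log
    · intro h
      apply hST
      have h1 : ∑ i, ((if i ∈ S then (1 : ℚ) else 0) - (if i ∈ T then (1 : ℚ) else 0)) • w i = 0 := by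
        have h2 : ∑ i ∈ S, w i - ∑ i ∈ T, w i = 0 := by
          rw [← h, hx]
          ring
        rw [← h2]
        simp only [sub_smul, Finset.sum_sub_distrib, ite_smul, one_smul, zero_smul,
          Finset.sum_ite_mem, Finset.univ_inter]
      rw [Fintype.linearIndependent_iff] at hli
      have h3 := hli _ h1
      ext i
      have h4 := h3 i
      by_cases h5 : i ∈ S <;> by_cases h6 : i ∈ T <;> simp [h5, h6] at h4 ⊢
    · rw [Complex.exp_sub, div_eq_mul_inv]
      exact (hxalg S).mul (hxalg T).inv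
  have hrel : ∀ S T, Disjoint S T → S.Nonempty → T.Nonempty →
      Close C (a ∅) (a S) ∧ Close C (a ∅) (a (S ∪ T)) := by
    intro S T hST hS hT
    have h1 : x ∅ + x (S ∪ T) = x S + x T := by
      rw [hx]
      simp only [Finset.sum_empty, add_zero]
      rw [Finset.sum_union hST]
      ring
    have key := hC ![a ∅, a (S ∪ T), a S, a T] ![x ∅, x (S ∪ T), x S, x T] (by
        intro i
        fin_cases i <;> exact ha0 _) (by
        intro i
        fin_cases i <;> exact hgood _) h1 (by
        intro i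
        fin_cases i <;> exact hxt _) (by
        change x ∅ + x (S ∪ T) ∉ QB
        apply notMem_of_log
        · have := hne2 (S ∪ T)
          rw [hx]
          simpa using this
        · rw [Complex.exp_add]
          exact (hxalg _).mul (hxalg _)) (by
        change x ∅ - x S ∉ QB
        exact hdiff _ _ (fun h => hS.ne_empty h.symm)) (by
        change x ∅ - x T ∉ QB
        exact hdiff _ _ (fun h => hT.ne_empty h.symm))
    exact ⟨key 0 2, key 0 1⟩
  have hclose : ∀ S, Close C (a ∅) (a S) := by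
    intro S
    by_cases hS : S = ∅
    · rw [hS]; exact Close.refl hC1 _
    · have hSn := Finset.nonempty_iff_ne_empty.2 hS
      by_cases hSu : S = Finset.univ
      · set z : Fin (r₁ + 2) := 0 with hz
        set z' : Fin (r₁ + 2) := 1 with hz'
        have hzz : z ≠ z' := by
          rw [hz, hz']
          intro h
          have := congrArg Fin.val h
          simp at this
        have h1 := (hrel {z} (Finset.univ.erase z) (by
          rw [Finset.disjoint_singleton_left]
          exact Finset.notMem_erase _ _) (Finset.singleton_nonempty _)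
          ⟨z', Finset.mem_erase.2 ⟨hzz.symm, Finset.mem_univ _⟩⟩).2
        have h2 : ({z} : Finset (Fin (r₁ + 2))) ∪ Finset.univ.erase z = S := by
          rw [hSu]
          ext i
          simp [em]
        rwa [h2] at h1
      · refine (hrel S Sᶜ disjoint_compl_right hSn ?_).1
        rw [Finset.nonempty_iff_ne_empty]
        intro h
        apply hSu
        exact Finset.compl_eq_empty_iff S |>.1 h
  -- the common exponential
  have hMQ : (M : QB) ≠ 0 := by exact_mod_cast (by omega : M ≠ 0)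
  set β : QB := a ∅ / (M : QB) with hβ
  have hβ0 : β ≠ 0 := div_ne_zero (ha0 ∅) hMQ
  have hβM : (M : QB) * β = a ∅ := by rw [hβ]; field_simp
  set v := cexp (β : ℂ) with hv
  have tv : Transcendental QB v := transcendental_exp hβ0
  have hall : ∀ S, Good E v (x S) := by
    intro S
    obtain ⟨p, q, hp, hq, hpC, hqC, hpq⟩ := hclose S
    have hqM : q ∣ (M : ℤ) := by
      rw [← Int.natAbs_dvd]
      exact_mod_cast Nat.dvd_factorial (Int.natAbs_pos.2 hq) hqC
    obtain ⟨k, hk⟩ := hqM
    have hk0 : k ≠ 0 := by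
      rintro rfl
      rw [mul_zero] at hk
      omega
    have e1 : (a S : QB) = ((p * k : ℤ) : QB) * β := by
      have hq' : (q : QB) ≠ 0 := by exact_mod_cast hq
      apply mul_left_cancel₀ hq'
      rw [← hpq, ← hβM]
      have : (M : QB) = (q : QB) * (k : QB) := by exact_mod_cast congrArg (Int.cast (R := QB)) hk
      rw [this]
      push_cast
      ring
    have e2 : cexp (a S : ℂ) = v ^ (p * k) := by
      rw [e1, hv, ← Complex.exp_int_mul]
      push_cast
      rfl
    have e3 := hgood S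
    rw [e2] at e3
    refine (Good.zpow tv (p * k) (mul_ne_zero hp hk0) (by
      rw [← e2]; exact transcendental_exp (ha0 S)) e3).mono ?_
    rw [hE, Int.natAbs_mul]
    apply Nat.mul_le_mul_left
    apply Nat.mul_le_mul hpC
    have e4 : M = q.natAbs * k.natAbs := by
      have := congrArg Int.natAbs hk
      rwa [Int.natAbs_natCast, Int.natAbs_mul] at this
    rw [e4]
    exact Nat.le_mul_of_pos_left _ (Int.natAbs_pos.2 hq)
  have hbad : ∀ S, ¬ NoRel QB (E + E) (fun o : Option Unit => o.elim (x S) (fun _ => v)) := by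
    intro S
    rcases hall S with h1 | ⟨_, h2, h3⟩
    · exact absurd h1 (hxt S)
    · exact not_noRel tv h2 h3
  have htN : NoRel QB (E + E) (fun _ : Unit => v) := by
    intro Q _ hQ
    have h1 : AlgebraicIndependent QB (fun _ : Unit => v) := by
      rw [algebraicIndependent_unique_type_iff]
      exact tv
    exact (algebraicIndependent_iff.1 h1) Q hQ
  have hli' := (linearIndependent_QB w hw hli).comp (Fin.castAdd 2 : Fin r₁ → Fin (r₁ + 2))
    (Fin.castAdd_injective r₁ 2)
  obtain ⟨S, hS⟩ := hr₁ (fun _ => v) htN v₀ _ hli'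
  apply hbad (S.map (Fin.castAddEmb 2))
  have h5 : x (S.map (Fin.castAddEmb 2)) = v₀ + ∑ i ∈ S, (w ∘ Fin.castAdd 2) i := by
    rw [hx]
    simp only [Finset.sum_map]
    rfl
  rw [h5]
  exact hS

end Pool.Agent.H351R3.Gel
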